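import Pool.Agent.H34.L.H293R3.BC.Main

set_option autoImplicit false

namespace Pool.Agent.H293R3.BC

open Finset

theorem card_gen {n : ℕ} (P : Equiv.Perm (Fin n) → Prop) (Q : Equiv.Perm (Fin n) → Prop)
    [DecidablePred Q] (h : ∀ σ, P σ ↔ Q σ) :
    (Nat.card {σ : Equiv.Perm (Fin n) // P σ} : ℝ) = ∑ σ, if Q σ then (1:ℝ) else 0 := by
  classical
  rw [sum_boole, Nat.card_congr (Equiv.subtypeEquivRight h), Nat.card_eq_fintype_card,
    Fintype.card_subtype]

theorem card_E {n : ℕ} (r : Fin n → Fin n → Prop) :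
    (Nat.card {σ : Equiv.Perm (Fin n) // ∀ a b, r a b → σ a ≤ σ b} : ℝ) = E r := by
  classical
  exact card_gen _ (fun σ => LE r σ) fun σ => Iff.rfl

theorem card_A {n : ℕ} (r : Fin n → Fin n → Prop) (x y : Fin n) :
    (Nat.card {σ : Equiv.Perm (Fin n) // (∀ a b, r a b → σ a ≤ σ b) ∧ σ x < σ y} : ℝ) =
      A r x y := by
  classical
  have h1 : A r x y = ∑ σ : Equiv.Perm (Fin n), if LE r σ ∧ σ x < σ y then (1:ℝ) else 0 := by
    unfold A T
    refine sum_congr rfl fun σ _ => ?_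
    by_cases h : LE r σ <;> by_cases h' : σ x < σ y <;> simp [h, h']
  rw [h1]
  exact card_gen _ (fun σ => LE r σ ∧ σ x < σ y) fun σ => Iff.rfl

end Pool.Agent.H293R3.BC
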