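import Pool.Agent.H34.L.H293R3.BC.Ins

set_option autoImplicit false

/-! The inductive construction. -/

namespace Pool.Agent.H293R3.BC

open Finset

/-- partial order -/
def IsPo {n : ℕ} (r : Fin n → Fin n → Prop) : Prop :=
  (∀ a, r a a) ∧ (∀ a b c, r a b → r b c → r a c) ∧ (∀ a b, r a b → r b a → a = b)

/-- antichain -/
def Anti {n : ℕ} (r : Fin n → Fin n → Prop) (s : Finset (Fin n)) : Prop :=
  ∀ a ∈ s, ∀ b ∈ s, a ≠ b → ¬ r a b

/-- The state of the construction: `w` the width, `c` the threshold below which the heights are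
separated, `b` the bound for the balance of the incomparable pairs. -/
structure G (w n : ℕ) (r : Fin n → Fin n → Prop) (c b : ℝ) : Prop where
  po : IsPo r
  wid : ∃ s, s.card = w ∧ Anti r s
  wid_le : ∀ s, Anti r s → s.card ≤ w
  pos : 0 < E r
  one_le : ∀ y, 1 ≤ ht r y
  sep : ∀ y z, y ≠ z → ht r y < c → ht r z < c → 1 ≤ |ht r y - ht r z|
  bal : ∀ x y, ¬ r x y → ¬ r y x → min (A r x y / E r) (A r y x / E r) ≤ b

variable {w n : ℕ} {r : Fin n → Fin n → Prop} {c b : ℝ}

theorem isPo_ext (C : Prop) (h : IsPo r) : IsPo (ext C r) := by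
  obtain ⟨h1, h2, h3⟩ := h
  refine ⟨?_, ?_, ?_⟩
  · intro a
    rcases Fin.eq_zero_or_eq_succ a with rfl | ⟨i, rfl⟩
    · simp
    · simpa using h1 i
  · intro a b d hab hbd
    rcases Fin.eq_zero_or_eq_succ a with rfl | ⟨i, rfl⟩ <;>
      rcases Fin.eq_zero_or_eq_succ b with rfl | ⟨j, rfl⟩ <;>
      rcases Fin.eq_zero_or_eq_succ d with rfl | ⟨k, rfl⟩
    · exact hab
    · exact hbd
    · simp
    · exact hab
    · exact hab
    · exact absurd hab (by simp)
    · exact absurd hbd (by simp)
    · exact h2 i j k hab hbd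
  · intro a b hab hba
    rcases Fin.eq_zero_or_eq_succ a with rfl | ⟨i, rfl⟩ <;>
      rcases Fin.eq_zero_or_eq_succ b with rfl | ⟨j, rfl⟩
    · rfl
    · exact absurd hba (by simp)
    · exact absurd hab (by simp)
    · rw [h3 i j hab hba]

/-- the part of a set that comes from the old elements -/
def old (s : Finset (Fin (n + 1))) : Finset (Fin n) := univ.filter fun i => i.succ ∈ s

theorem card_old (s : Finset (Fin (n + 1))) :
    s.card = (old s).card + if (0 : Fin (n + 1)) ∈ s then 1 else 0 := by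
  have h1 : s = (old s).map (Fin.succEmb n) ∪ (if (0 : Fin (n + 1)) ∈ s then {0} else ∅) := by
    ext a
    rw [mem_union, mem_map]
    rcases Fin.eq_zero_or_eq_succ a with rfl | ⟨i, rfl⟩
    · constructor
      · intro h
        right
        rw [if_pos h]
        exact mem_singleton_self _
      · rintro (⟨j, -, h⟩ | h)
        · exact absurd h (Fin.succ_ne_zero j)
        · by_contra h0
          rw [if_neg h0] at h
          simp at h
    · constructor
      · intro h
        left
        exact ⟨i, by simp [old, h], rfl⟩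
      · rintro (⟨j, hj, h⟩ | h)
        · have : j = i := Fin.succ_injective n h
          subst this
          simpa [old] using hj
        · split_ifs at h
          · exact absurd (mem_singleton.1 h) (Fin.succ_ne_zero i)
          · simp at h
  have hd : Disjoint ((old s).map (Fin.succEmb n))
      (if (0 : Fin (n + 1)) ∈ s then {0} else ∅) := by
    rw [disjoint_left]
    intro a ha hb
    obtain ⟨i, -, rfl⟩ := mem_map.1 ha
    split_ifs at hb
    · exact absurd (mem_singleton.1 hb) (Fin.succ_ne_zero i)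
    · simp at hb
  conv_lhs => rw [h1]
  rw [card_union_of_disjoint hd, card_map]
  split_ifs <;> simp

theorem anti_old (C : Prop) {s : Finset (Fin (n + 1))} (h : Anti (ext C r) s) :
    Anti r (old s) := by
  intro a ha b hb hab hr
  rw [old, mem_filter] at ha hb
  exact h a.succ ha.2 b.succ hb.2 (fun h => hab (Fin.succ_injective n h)) hr

/-- adding a least element -/
theorem G.bot (h : G w n r c b) (hw : 1 ≤ w) : G w (n + 1) (ext True r) (c + 1) b := by
  have hE := h.pos
  have hs : ∀ y, ht (ext True r) y.succ = ht r y + 1 := by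
    intro y
    unfold ht
    rw [S_true_succ, E_true]
    field_simp
  have hz : ht (ext True r) 0 = 1 := by
    unfold ht
    rw [S_true_zero, E_true, div_self hE.ne']
  refine ⟨isPo_ext _ h.po, ?_, ?_, by rw [E_true]; exact hE, ?_, ?_, ?_⟩
  · obtain ⟨s, hs1, hs2⟩ := h.wid
    refine ⟨s.map (Fin.succEmb n), by rw [card_map, hs1], ?_⟩
    intro a ha b hb hab
    obtain ⟨i, hi, rfl⟩ := mem_map.1 ha
    obtain ⟨j, hj, rfl⟩ := mem_map.1 hb
    exact hs2 i hi j hj (fun h => hab (by rw [h]))
  · intro s hs1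
    by_cases h0 : (0 : Fin (n + 1)) ∈ s
    · have : old s = ∅ := by
        rw [eq_empty_iff_forall_notMem]
        intro i hi
        rw [old, mem_filter] at hi
        exact hs1 0 h0 i.succ hi.2 (Fin.succ_ne_zero i).symm trivial
      rw [card_old, this, if_pos h0]
      simpa using hw
    · rw [card_old, if_neg h0]
      exact h.wid_le _ (anti_old _ hs1)
  · intro y
    rcases Fin.eq_zero_or_eq_succ y with rfl | ⟨i, rfl⟩
    · rw [hz]
    · rw [hs]
      linarith [h.one_le i]
  · intro y z hyz hy hz'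
    rcases Fin.eq_zero_or_eq_succ y with rfl | ⟨i, rfl⟩ <;>
      rcases Fin.eq_zero_or_eq_succ z with rfl | ⟨j, rfl⟩
    · exact absurd rfl hyz
    · rw [hz, hs, abs_sub_comm]
      refine le_trans ?_ (le_abs_self _)
      linarith [h.one_le j]
    · rw [hz, hs]
      refine le_trans ?_ (le_abs_self _)
      linarith [h.one_le i]
    · rw [hs] at hy hz' ⊢
      rw [hs]
      have := h.sep i j (fun h => hyz (by rw [h])) (by linarith) (by linarith)
      rwa [add_sub_add_right_eq_sub]
  · intro x y hxy hyx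
    rcases Fin.eq_zero_or_eq_succ x with rfl | ⟨i, rfl⟩ <;>
      rcases Fin.eq_zero_or_eq_succ y with rfl | ⟨j, rfl⟩
    · exact absurd trivial hxy
    · exact absurd trivial hxy
    · exact absurd trivial hyx
    · rw [A_true, A_true, E_true]
      exact h.bal i j hxy hyx

/-- adding an element which is incomparable to everything -/
theorem G.par (h : G w n r c b) (hc : c ≤ ((n : ℝ) + 1) / 2) {b' : ℝ} (hb : b ≤ b')
    (hb' : 1 / 2 - 1 / (4 * ((n : ℝ) + 1)) ≤ b')
    (hg : ∀ y, 1 / 4 ≤ |ht r y - ((n : ℝ) + 1) / 2|) :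
    G (w + 1) (n + 1) (ext False r) (c * ((n : ℝ) + 2) / (n + 1)) b' := by
  have hE := h.pos
  have hn : (0:ℝ) < (n : ℝ) + 1 := by positivity
  have hs : ∀ y, ht (ext False r) y.succ = ht r y * (((n : ℝ) + 2) / (n + 1)) := by
    intro y
    unfold ht
    rw [S_false_succ, E_false]
    field_simp
  have hz : ht (ext False r) 0 = ((n : ℝ) + 2) / 2 := by
    unfold ht
    rw [S_false_zero, E_false]
    field_simp
  have hfac : 1 ≤ ((n : ℝ) + 2) / (n + 1) := by
    rw [le_div_iff₀ hn]; linarith
  have hcc : c * ((n : ℝ) + 2) / (n + 1) = c * (((n : ℝ) + 2) / (n + 1)) := by ring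
  have hpair : ∀ y, min (ht r y / ((n : ℝ) + 1)) (1 - ht r y / ((n : ℝ) + 1)) ≤ b' := by
    intro y
    refine le_trans ?_ hb'
    have h1 := hg y
    have e1 : ht r y / ((n : ℝ) + 1) = 1 / 2 + (ht r y - ((n : ℝ) + 1) / 2) / ((n : ℝ) + 1) := by
      field_simp; ring
    have e2 : 1 / (4 * ((n : ℝ) + 1)) = (1 / 4) / ((n : ℝ) + 1) := by field_simp
    rw [e1, e2]
    rcases le_abs.1 h1 with h2 | h2
    · refine (min_le_right _ _).trans ?_
      have : (1 / 4) / ((n : ℝ) + 1) ≤ (ht r y - ((n : ℝ) + 1) / 2) / ((n : ℝ) + 1) := by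
        gcongr
      linarith
    · refine (min_le_left _ _).trans ?_
      have : (1 / 4) / ((n : ℝ) + 1) ≤ -(ht r y - ((n : ℝ) + 1) / 2) / ((n : ℝ) + 1) := by
        gcongr
      rw [neg_div] at this
      linarith
  have hzs : ∀ y, A (ext False r) 0 y.succ / E (ext False r) = ht r y / ((n : ℝ) + 1) := by
    intro y
    rw [A_false_zs, E_false, ht]
    field_simp
  have hsz : ∀ y, A (ext False r) y.succ 0 / E (ext False r) = 1 - ht r y / ((n : ℝ) + 1) := by
    intro y
    rw [A_false_sz, E_false, ht]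
    field_simp
  refine ⟨isPo_ext _ h.po, ?_, ?_, ?_, ?_, ?_, ?_⟩
  · obtain ⟨s, hs1, hs2⟩ := h.wid
    refine ⟨insert 0 (s.map (Fin.succEmb n)), ?_, ?_⟩
    · rw [card_insert_of_notMem, card_map, hs1]
      intro h0
      obtain ⟨i, -, hi⟩ := mem_map.1 h0
      exact Fin.succ_ne_zero i hi
    · intro a ha b hb hab
      rcases mem_insert.1 ha with rfl | ha
      · rcases mem_insert.1 hb with rfl | hb
        · exact absurd rfl hab
        · obtain ⟨j, -, rfl⟩ := mem_map.1 hb
          exact fun h => h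
      · obtain ⟨i, hi, rfl⟩ := mem_map.1 ha
        rcases mem_insert.1 hb with rfl | hb
        · exact fun h => h
        · obtain ⟨j, hj, rfl⟩ := mem_map.1 hb
          exact hs2 i hi j hj (fun h => hab (by rw [h]))
  · intro s hs1
    rw [card_old]
    have := h.wid_le _ (anti_old _ hs1)
    split_ifs <;> omega
  · rw [E_false]; positivity
  · intro y
    rcases Fin.eq_zero_or_eq_succ y with rfl | ⟨i, rfl⟩
    · rw [hz]
      have : (0:ℝ) ≤ n := Nat.cast_nonneg n
      linarith
    · rw [hs]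
      have := h.one_le i
      nlinarith
  · intro y z hyz hy hz'
    rw [hcc] at hy hz'
    have hpos : 0 < ((n : ℝ) + 2) / (n + 1) := by positivity
    have hx : ¬ (((n : ℝ) + 2) / 2 < c * (((n : ℝ) + 2) / (n + 1))) := by
      rw [not_lt]
      calc c * (((n : ℝ) + 2) / (n + 1)) ≤ ((n : ℝ) + 1) / 2 * (((n : ℝ) + 2) / (n + 1)) := by
            gcongr
        _ = ((n : ℝ) + 2) / 2 := by field_simp
    rcases Fin.eq_zero_or_eq_succ y with rfl | ⟨i, rfl⟩ <;>
      rcases Fin.eq_zero_or_eq_succ z with rfl | ⟨j, rfl⟩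
    · exact absurd rfl hyz
    · rw [hz] at hy
      exact absurd hy hx
    · rw [hz] at hz'
      exact absurd hz' hx
    · rw [hs] at hy hz' ⊢
      rw [hs]
      have h1 := h.sep i j (fun h => hyz (by rw [h])) (lt_of_mul_lt_mul_right hy hpos.le)
        (lt_of_mul_lt_mul_right hz' hpos.le)
      rw [← sub_mul, abs_mul, abs_of_pos hpos]
      nlinarith
  · intro x y hxy hyx
    rcases Fin.eq_zero_or_eq_succ x with rfl | ⟨i, rfl⟩ <;>
      rcases Fin.eq_zero_or_eq_succ y with rfl | ⟨j, rfl⟩
    · exact absurd trivial hxy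
    · rw [hzs, hsz]
      exact hpair j
    · rw [hzs, hsz, min_comm]
      exact hpair i
    · rw [A_false, A_false, E_false, mul_div_mul_left _ _ hn.ne', mul_div_mul_left _ _ hn.ne']
      exact (h.bal i j hxy hyx).trans hb

theorem G.mono (h : G w n r c b) {c' : ℝ} (hc : c' ≤ c) : G w n r c' b :=
  ⟨h.po, h.wid, h.wid_le, h.pos, h.one_le,
    fun y z hyz hy hz => h.sep y z hyz (hy.trans_le hc) (hz.trans_le hc), h.bal⟩

/-- one step of the construction -/
theorem step (hw : 1 ≤ w) (hn1 : 1 ≤ n) (hn : n + 1 ≤ 3 * w - 1)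
    (h : G w n r (((n : ℝ) + 1) / 2) b) (hb : b ≤ 1 / 2 - 1 / (12 * ((w : ℝ) + 1) - 8)) :
    ∃ (m : ℕ) (q : Fin m → Fin m → Prop), 1 ≤ m ∧ m + 1 ≤ 3 * (w + 1) - 1 ∧
      G (w + 1) m q (((m : ℝ) + 1) / 2) (1 / 2 - 1 / (12 * ((w : ℝ) + 1) - 8)) := by
  have hnR : ((n : ℝ) + 1) ≤ 3 * w - 1 := by
    have h1 : n + 1 + 1 ≤ 3 * w := by omega
    have h2 : ((n + 1 + 1 : ℕ) : ℝ) ≤ ((3 * w : ℕ) : ℝ) := by exact_mod_cast h1
    push_cast at h2
    linarith
  have hn1R : (1 : ℝ) ≤ n := by exact_mod_cast hn1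
  have hs : ∀ (n : ℕ) (r : Fin n → Fin n → Prop), 0 < E r → ∀ y,
      ht (ext True r) y.succ = ht r y + 1 := by
    intro n r hE y
    unfold ht
    rw [S_true_succ, E_true]
    field_simp
  have hz : ∀ (n : ℕ) (r : Fin n → Fin n → Prop), 0 < E r → ht (ext True r) 0 = 1 := by
    intro n r hE
    unfold ht
    rw [S_true_zero, E_true, div_self hE.ne']
  by_cases hk : ∀ y, 1 / 4 ≤ |ht r y - (n : ℝ) / 2|
  · -- one new least element
    have h1 := h.bot hw
    have h2 : G w (n + 1) (ext True r) ((((n + 1 : ℕ) : ℝ) + 1) / 2) b :=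
      h1.mono (by push_cast; linarith)
    have h3 := h2.par (b' := 1 / 2 - 1 / (12 * ((w : ℝ) + 1) - 8)) le_rfl hb (by
      push_cast
      have : 1 / (12 * ((w : ℝ) + 1) - 8) ≤ 1 / (4 * ((n : ℝ) + 1 + 1)) := by
        apply one_div_le_one_div_of_le (by positivity)
        linarith
      linarith) (by
      intro y
      push_cast
      rcases Fin.eq_zero_or_eq_succ y with rfl | ⟨i, rfl⟩
      · rw [hz n r h.pos, abs_sub_comm]
        refine le_trans ?_ (le_abs_self _)
        linarith
      · rw [hs n r h.pos]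
        have := hk i
        have e : ht r i + 1 - ((n : ℝ) + 1 + 1) / 2 = ht r i - (n : ℝ) / 2 := by ring
        rw [e]
        exact this)
    refine ⟨n + 1 + 1, ext False (ext True r), by omega, by omega, ?_⟩
    have e : (((n + 1 : ℕ) : ℝ) + 1) / 2 * (((n + 1 : ℕ) : ℝ) + 2) / (((n + 1 : ℕ) : ℝ) + 1) =
        (((n + 1 + 1 : ℕ) : ℝ) + 1) / 2 := by
      push_cast
      field_simp
      ring
    rw [e] at h3
    exact h3
  · -- two new elements
    push Not at hk
    obtain ⟨y0, hy0⟩ := hk
    have hy0' := abs_lt.1 hy0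
    have hn2 : (2 : ℝ) ≤ n := by
      have h1 := h.one_le y0
      have h2 : (3 / 2 : ℝ) < n := by linarith [hy0'.2]
      have h3 : 1 < n := by
        by_contra h4
        have h5 : (n : ℝ) ≤ 1 := by exact_mod_cast not_lt.1 h4
        linarith
      exact_mod_cast h3
    have hk2 : ∀ y, 1 / 4 ≤ |ht r y - ((n : ℝ) - 1) / 2| := by
      intro y
      by_contra hy
      rw [not_le] at hy
      have hy' := abs_lt.1 hy
      by_cases hyy : y = y0
      · subst hyy
        linarith [hy'.2, hy0'.1, hy'.1, hy0'.2]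
      · have h1 := h.sep y y0 hyy (by linarith [hy'.2]) (by linarith [hy0'.2])
        rcases le_abs.1 h1 with h2 | h2
        · linarith [hy'.2, hy0'.1]
        · linarith [hy'.1, hy0'.2]
    have h1 := (h.bot hw).bot hw
    have h2 : G w (n + 1 + 1) (ext True (ext True r)) ((((n + 1 + 1 : ℕ) : ℝ) + 1) / 2) b :=
      h1.mono (by push_cast; linarith)
    have hE1 : 0 < E (ext True r) := by rw [E_true]; exact h.pos
    have h3 := h2.par (b' := 1 / 2 - 1 / (12 * ((w : ℝ) + 1) - 8)) le_rfl hb (by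
      push_cast
      have : 1 / (12 * ((w : ℝ) + 1) - 8) ≤ 1 / (4 * ((n : ℝ) + 1 + 1 + 1)) := by
        apply one_div_le_one_div_of_le (by positivity)
        linarith
      linarith) (by
      intro y
      push_cast
      rcases Fin.eq_zero_or_eq_succ y with rfl | ⟨i, rfl⟩
      · rw [hz _ _ hE1, abs_sub_comm]
        refine le_trans ?_ (le_abs_self _)
        linarith
      · rw [hs _ _ hE1]
        rcases Fin.eq_zero_or_eq_succ i with rfl | ⟨j, rfl⟩
        · rw [hz _ _ h.pos, abs_sub_comm]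
          refine le_trans ?_ (le_abs_self _)
          linarith
        · rw [hs _ _ h.pos]
          have := hk2 j
          have e : ht r j + 1 + 1 - ((n : ℝ) + 1 + 1 + 1) / 2 = ht r j - ((n : ℝ) - 1) / 2 := by
            ring
          rw [e]
          exact this)
    refine ⟨n + 1 + 1 + 1, ext False (ext True (ext True r)), by omega, by omega, ?_⟩
    have e : (((n + 1 + 1 : ℕ) : ℝ) + 1) / 2 * (((n + 1 + 1 : ℕ) : ℝ) + 2) /
        (((n + 1 + 1 : ℕ) : ℝ) + 1) = (((n + 1 + 1 + 1 : ℕ) : ℝ) + 1) / 2 := by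
      push_cast
      field_simp
      ring
    rw [e] at h3
    exact h3

/-- the one-element poset -/
theorem base (b : ℝ) : G 1 1 (fun _ _ => True) ((((1 : ℕ) : ℝ) + 1) / 2) b := by
  have hT : ∀ f : Equiv.Perm (Fin 1) → ℝ, T (fun _ _ : Fin 1 => True) f = f 1 := by
    intro f
    classical
    unfold T
    rw [Fintype.sum_unique]
    have h : LE (fun _ _ : Fin 1 => True) (default : Equiv.Perm (Fin 1)) := by
      intro a b _
      exact (Subsingleton.elim _ _).le
    rw [if_pos h]
    congr 1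
  have hE : E (fun _ _ : Fin 1 => True) = 1 := by
    unfold E; rw [hT]
  refine ⟨⟨fun _ => trivial, fun _ _ _ _ _ => trivial, fun a b _ _ => Subsingleton.elim a b⟩,
    ⟨univ, by simp, fun a _ b _ hab => absurd (Subsingleton.elim a b) hab⟩, ?_, ?_, ?_, ?_, ?_⟩
  · intro s _
    exact (card_le_univ s).trans (by simp)
  · rw [hE]; norm_num
  · intro y
    unfold ht S
    rw [hT, hE]
    have : (((1 : Equiv.Perm (Fin 1)) y : Fin 1) : ℕ) = 0 := by
      have := ((1 : Equiv.Perm (Fin 1)) y).2
      omega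
    rw [this]
    norm_num
  · intro y z hyz
    exact absurd (Subsingleton.elim y z) hyz
  · intro x y hxy
    exact absurd trivial hxy

/-- for every width `w` there is a poset with the required balance -/
theorem exists_poset (w : ℕ) (hw : 1 ≤ w) : ∃ (n : ℕ) (r : Fin n → Fin n → Prop), 1 ≤ n ∧
    n + 1 ≤ 3 * w - 1 ∧ G w n r (((n : ℝ) + 1) / 2) (1 / 2 - 1 / (12 * (w : ℝ) - 8)) := by
  induction w, hw using Nat.le_induction with
  | base => exact ⟨1, _, le_rfl, by omega, base _⟩
  | succ w hw ih =>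
    obtain ⟨n, r, hn1, hn, h⟩ := ih
    have hw1 : (1 : ℝ) ≤ w := by exact_mod_cast hw
    obtain ⟨m, q, hm1, hm, hq⟩ := step hw hn1 hn h (by
      have : 1 / (12 * ((w : ℝ) + 1) - 8) ≤ 1 / (12 * (w : ℝ) - 8) := by
        apply one_div_le_one_div_of_le
        · linarith
        · linarith
      linarith)
    refine ⟨m, q, hm1, hm, ?_⟩
    push_cast
    exact hq

end Pool.Agent.H293R3.BC
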